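import Mathlib
import Pool.Agent.Q14.MCN7998

set_option autoImplicit false

/-! # A non-MC value of `f` -/

namespace Pool.Agent.Results.MP_2ab2dc_nt.NonMCValue

open Pool.Agent.Q14.MC

/-- `f k` is the number of lattice points enclosed by the circle with centre `(1/2, 1/2)` and
squared radius `k² + k + 1/2`. -/
noncomputable def f (k : ℕ) : ℕ :=
  (enclosed (1 / 2) (1 / 2) (Real.sqrt ((k : ℝ) ^ 2 + k + 1 / 2))).ncard

theorem f_eq (k : ℕ) : f k = cnt 2 (4 * k ^ 2 + 4 * k + 2) (k + 2) 1 1 1 1 := by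
  have hR : ((2 : ℕ) : ℝ) ^ 2 * (Real.sqrt ((k : ℝ) ^ 2 + k + 1 / 2)) ^ 2
      = ((4 * k ^ 2 + 4 * k + 2 : ℕ) : ℝ) := by
    rw [Real.sq_sqrt (by positivity)]
    push_cast
    ring
  have h1 := enclosed_shift (-(1 / 2)) (-(1 / 2)) (Real.sqrt ((k : ℝ) ^ 2 + k + 1 / 2)) 1 1
  have e : (-(1 / 2) : ℝ) + ((1 : ℤ) : ℝ) = 1 / 2 := by norm_num
  rw [e, enclosed_eq (by norm_num) hR] at h1
  have e2 : ((2 : ℕ) : ℝ) * (1 / 2) = ((1 : ℕ) : ℝ) := by norm_num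
  rw [e2, E_encard 2 (4 * k ^ 2 + 4 * k + 2) (k + 2) 1 1 (by norm_num) (by norm_num)
    (by nlinarith)] at h1
  unfold f
  rw [Set.ncard_def, h1]
  rfl

theorem f50 : f 50 = 8000 := by
  rw [f_eq]
  decide +kernel

/-- `f 50 = 8000`, and this is not an MC number. -/
theorem result : f 50 = 8000 ∧ ¬ IsMC (f 50) := by
  have h : ¬ IsMC (f 50) := by rw [f50]; exact N7998.not_mc_2
  exact ⟨f50, h⟩

end Pool.Agent.Results.MP_2ab2dc_nt.NonMCValue
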